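import Mathlib
import Pool.Agent.H590.NL.Stm

/-! # NL590 KR: existence of regularised kernels -/

set_option autoImplicit false

noncomputable section

open MeasureTheory Filter Topology Set
open scoped BigOperators ENNReal

namespace H664NL

open H590NL

/-- second differences from below -/
lemma second_diff {f f1 f2 : ℝ → ℝ} (h1 : ∀ u, HasDerivAt f (f1 u) u)
    (h2 : ∀ u, HasDerivAt f1 (f2 u) u) (u A B : ℝ)
    (hA : ∀ s, 0 ≤ s → 2 * A - 2 * B * s ≤ f2 (u + s) + f2 (u - s)) (e : ℝ) (he : 0 ≤ e) :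
    A * e ^ 2 - B * e ^ 3 / 3 ≤ f (u + e) + f (u - e) - 2 * f u := by
  obtain ⟨h, hh⟩ : ∃ h : ℝ → ℝ, h = fun s =>
    f (u + s) + f (u - s) - 2 * f u - A * s ^ 2 + B * s ^ 3 / 3 := ⟨_, rfl⟩
  obtain ⟨k, hk⟩ : ∃ k : ℝ → ℝ, k = fun s =>
    f1 (u + s) - f1 (u - s) - 2 * A * s + B * s ^ 2 := ⟨_, rfl⟩
  have dk : ∀ s, HasDerivAt k (f2 (u + s) + f2 (u - s) - 2 * A + 2 * B * s) s := by
    intro s
    rw [hk]
    have a1 : HasDerivAt (fun s => f1 (u + s)) (f2 (u + s)) s := by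
      simpa using (h2 (u + s)).comp_const_add u s
    have a2 : HasDerivAt (fun s => f1 (u - s)) (-f2 (u - s)) s := by
      simpa using (h2 (u - s)).comp_const_sub u s
    have a3 : HasDerivAt (fun s : ℝ => 2 * A * s) (2 * A) s := by
      simpa using (hasDerivAt_id s).const_mul (2 * A)
    have a4 : HasDerivAt (fun s : ℝ => B * s ^ 2) (2 * B * s) s :=
      ((hasDerivAt_pow 2 s).const_mul B).congr_deriv (by push_cast; ring)
    exact (((a1.sub a2).sub a3).add a4).congr_deriv (by ring)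
  have dh : ∀ s, HasDerivAt h (k s) s := by
    intro s
    rw [hh, hk]
    have a1 : HasDerivAt (fun s => f (u + s)) (f1 (u + s)) s := by
      simpa using (h1 (u + s)).comp_const_add u s
    have a2 : HasDerivAt (fun s => f (u - s)) (-f1 (u - s)) s := by
      simpa using (h1 (u - s)).comp_const_sub u s
    have a3 : HasDerivAt (fun s : ℝ => A * s ^ 2) (2 * A * s) s :=
      ((hasDerivAt_pow 2 s).const_mul A).congr_deriv (by push_cast; ring)
    have a4 : HasDerivAt (fun s : ℝ => B * s ^ 3 / 3) (B * s ^ 2) s :=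
      (((hasDerivAt_pow 3 s).const_mul B).div_const 3).congr_deriv (by push_cast; ring)
    exact ((((a1.add a2).sub_const (2 * f u)).sub a3).add a4).congr_deriv (by ring)
  have mk : MonotoneOn k (Ici 0) := by
    refine monotoneOn_of_deriv_nonneg (convex_Ici 0)
      (fun s _ => (dk s).continuousAt.continuousWithinAt)
      (fun s _ => (dk s).differentiableAt.differentiableWithinAt) fun s hs => ?_
    rw [interior_Ici] at hs
    rw [(dk s).deriv]
    have := hA s (le_of_lt hs)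
    linarith
  have k0 : k 0 = 0 := by rw [hk]; simp
  have mh : MonotoneOn h (Ici 0) := by
    refine monotoneOn_of_deriv_nonneg (convex_Ici 0)
      (fun s _ => (dh s).continuousAt.continuousWithinAt)
      (fun s _ => (dh s).differentiableAt.differentiableWithinAt) fun s hs => ?_
    rw [interior_Ici] at hs
    rw [(dh s).deriv, ← k0]
    exact mk (mem_Ici.2 le_rfl) (mem_Ici.2 (le_of_lt hs)) (le_of_lt hs)
  have h0 : h 0 = 0 := by rw [hh]; simp; ring
  have h3 := mh (mem_Ici.2 le_rfl) (mem_Ici.2 he) he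
  rw [h0, hh] at h3
  simp only at h3
  linarith

lemma second_diff' {f f1 f2 : ℝ → ℝ} (h1 : ∀ u, HasDerivAt f (f1 u) u)
    (h2 : ∀ u, HasDerivAt f1 (f2 u) u) (u A B : ℝ)
    (hA : ∀ s, 0 ≤ s → 2 * A - 2 * B * s ≤ f2 (u + s) + f2 (u - s)) (e : ℝ) :
    A * e ^ 2 - B * |e| ^ 3 / 3 ≤ f (u + e) + f (u - e) - 2 * f u := by
  rcases le_total 0 e with he | he
  · rw [abs_of_nonneg he]
    exact second_diff h1 h2 u A B hA e he
  · rw [abs_of_nonpos he]
    have h3 := second_diff h1 h2 u A B hA (-e) (by linarith)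
    rw [neg_sq, ← sub_eq_add_neg, sub_neg_eq_add] at h3
    linarith

/-- integrals against the truncated Levy measure -/
lemma int_Lm (p c z0 z1 : ℝ) (hc : 0 < c) (h0 : 0 < z0) (h1 : z0 < z1) (g : ℝ → ℝ) :
    ∫ z, g z ∂(Lm p c z0 z1) = ∫ z in z0..z1, g z * (c * z ^ (-1 - p / 2)) := by
  have hmeas : Measurable fun z : ℝ => ENNReal.ofReal (c * z ^ (-1 - p / 2)) :=
    ((measurable_id.pow_const (-1 - p / 2)).const_mul c).ennreal_ofReal
  unfold Lm
  rw [integral_withDensity_eq_integral_toReal_smul hmeas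
    (ae_of_all _ fun y => ENNReal.ofReal_lt_top), intervalIntegral.integral_of_le h1.le,
    ← integral_Icc_eq_integral_Ioc]
  refine setIntegral_congr_fun measurableSet_Icc fun z hz => ?_
  have hz0 : 0 < z := lt_of_lt_of_le h0 hz.1
  have hz1 : 0 ≤ c * z ^ (-1 - p / 2) := by positivity
  rw [ENNReal.toReal_ofReal hz1, smul_eq_mul, mul_comm]

lemma fin_Lm (p c z0 z1 : ℝ) (h0 : 0 < z0) :
    IsFiniteMeasure (Lm p c z0 z1) := by
  unfold Lm
  have hi : IntegrableOn (fun z : ℝ => c * z ^ (-1 - p / 2)) (Icc z0 z1) := by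
    refine ContinuousOn.integrableOn_Icc ?_
    refine ContinuousOn.mul continuousOn_const ?_
    refine ContinuousOn.rpow_const continuousOn_id fun z hz => Or.inl ?_
    exact (lt_of_lt_of_le h0 hz.1).ne'
  exact isFiniteMeasure_withDensity_ofReal hi.2

lemma null_Lm (p c z0 z1 : ℝ) : Lm p c z0 z1 (Icc z0 z1)ᶜ = 0 := by
  unfold Lm
  refine withDensity_absolutelyContinuous _ _ ?_
  rw [Measure.restrict_apply measurableSet_Icc.compl]
  simp

theorem KR (h1 : S_KM) (h2 : S_KC) (h3 : S_KS) : S_KR := by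
  intro p hp1 hp2 ε hε
  obtain ⟨c, hc, hcε⟩ := h2 p hp1 hp2
  obtain ⟨z0, z1, h0, h01, happ⟩ := hcε ε hε
  obtain ⟨C0, d1, d2, cω, c2, bω, b2, lip, hps⟩ := h3 p c z0 z1 hp1 hp2 hc h0 h01
  obtain ⟨b, hb⟩ : ∃ b : ℝ, b = c * z0 ^ (1 - p / 2) / (1 - p / 2) := ⟨_, rfl⟩
  have hb0 : 0 < b := by
    rw [hb]
    have : 0 < 1 - p / 2 := by linarith
    positivity
  have := fin_Lm p c z0 z1 h0
  obtain ⟨ν, hν, hsupp, hint, hm, hm1⟩ := h1 (Lm p c z0 z1) b z0 z1 hb0 h0 h01
    (null_Lm p c z0 z1)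
  have hpsi : ∀ u, psi p c z0 z1 u =
      b * u ^ 2 + ∫ z, (1 - Real.exp (-(z * u ^ 2))) ∂(Lm p c z0 z1) := by
    intro u
    rw [int_Lm p c z0 z1 hc h0 h01, hb]
    rfl
  have hom : ∀ u, om p c z0 z1 u =
      b + ∫ z, z * Real.exp (-(z * u ^ 2)) ∂(Lm p c z0 z1) := by
    intro u
    rw [int_Lm p c z0 z1 hc h0 h01, hb]
    rfl
  have hC0 : 0 ≤ C0 := (abs_nonneg _).trans (b2 0)
  refine ⟨b, C0, psi p c z0 z1, om p c z0 z1, psi2 p c z0 z1, ν, ?_, happ⟩
  refine ⟨hb0, hν, hsupp, hint, fun u => ?_, fun u => ?_, d1, d2, cω, c2, fun u => ?_, b2,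
    fun u => ?_, fun u => ?_, fun u e => ?_, fun u e => ?_⟩
  · rw [hm (u ^ 2) (sq_nonneg u), hpsi]
  · rw [hm1 (u ^ 2) (sq_nonneg u), hpsi, hom]
  · rw [hb]
    exact bω u
  · rw [hpsi]
    have hnn : 0 ≤ ∫ z, (1 - Real.exp (-(z * u ^ 2))) ∂(Lm p c z0 z1) := by
      rw [int_Lm p c z0 z1 hc h0 h01]
      refine intervalIntegral.integral_nonneg h01.le fun z hz => ?_
      have hz0 : 0 < z := lt_of_lt_of_le h0 hz.1
      refine mul_nonneg ?_ (by positivity)
      rw [sub_nonneg, Real.exp_le_one_iff]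
      have : 0 ≤ z * u ^ 2 := by positivity
      linarith
    linarith
  · unfold psi om
    rw [neg_sq]
    exact ⟨rfl, rfl⟩
  · have hA : ∀ s, 0 ≤ s → 2 * (2 * (p - 1) * b) - 2 * 0 * s ≤
        psi2 p c z0 z1 (u + s) + psi2 p c z0 z1 (u - s) := by
      intro s _
      have e1 := hps (u + s)
      have e2 := hps (u - s)
      have e3 := (bω (u + s)).1
      have e4 := (bω (u - s)).1
      rw [← hb] at e3 e4
      have e5 : 2 * (p - 1) * b ≤ 2 * (p - 1) * om p c z0 z1 (u + s) :=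
        mul_le_mul_of_nonneg_left e3 (by linarith)
      have e6 : 2 * (p - 1) * b ≤ 2 * (p - 1) * om p c z0 z1 (u - s) :=
        mul_le_mul_of_nonneg_left e4 (by linarith)
      linarith
    have h4 := second_diff' d1 d2 u (2 * (p - 1) * b) 0 hA e
    linarith
  · have hA : ∀ s, 0 ≤ s → 2 * (2 * (p - 1) * om p c z0 z1 u) - 2 * C0 * s ≤
        psi2 p c z0 z1 (u + s) + psi2 p c z0 z1 (u - s) := by
      intro s hs
      have e1 := lip u s
      have e2 := lip u (-s)
      rw [← sub_eq_add_neg, abs_neg] at e2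
      rw [abs_of_nonneg hs] at e1 e2
      have e3 := (abs_le.1 e1).1
      have e4 := (abs_le.1 e2).1
      have e5 := hps u
      linarith
    have h4 := second_diff' d1 d2 u (2 * (p - 1) * om p c z0 z1 u) C0 hA e
    have h5 : 0 ≤ C0 * |e| ^ 3 := by positivity
    linarith

end H664NL
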